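import Pool.Agent.H440.SD.Dens

/-!
# The zeros off the central line of the product of all Hecke L-functions of several types, over a ray
# class field (helper440)
-/

set_option autoImplicit false
set_option linter.unusedSectionVars false

open NumberField IsDedekindDomain Complex Filter Topology Set

namespace Pool.Agent.H440.SD

open Pool.Agent.Y773 (TPos LI)
open Pool.Agent.Y767 (Mq Cls cls eq_of_LI)
open Pool.Agent.Y773.IQ (ofM' tM absNorm_pos')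
open Pool.Agent.N784.HC
open Pool.Agent.N784.CZ
open Pool.Agent.N784.AD (pi1 Un one_le_Un cls_card_le hK)
open Pool.Agent.N833.CZ (norm_ofM'_le)
open Pool.Agent.H82R3.EK (cnt cnt_eq_sum cnt_prod)
open Pool.Agent.H440.CM (ev glue1)

/-- constants that are uniform over the types of bounded exponents -/
theorem unif_types (K : Type) [Field K] [NumberField K] (i : ℕ)
    (P : ((K →+* ℂ) → ℕ) → ℝ → Prop) (hP : ∀ n, CTyp n → n ≠ 0 → ∃ A, 1 ≤ A ∧ P n A)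
    (mono : ∀ n A B, 1 ≤ A → A ≤ B → P n A → P n B) : ∃ A : ℝ, 1 ≤ A ∧
    ∀ n : (K →+* ℂ) → ℕ, CTyp n → n ≠ 0 → (∀ φ, n φ ≤ i) → P n A := by
  classical
  have hfin : {n : (K →+* ℂ) → ℕ | ∀ φ, n φ ≤ i}.Finite := by
    have h1 := Set.Finite.pi' (ι := K →+* ℂ) (fun _ => Set.finite_Iic i)
    exact h1.subset fun n hn => hn
  have key : ∀ S : Set ((K →+* ℂ) → ℕ), S.Finite → ∃ A : ℝ, 1 ≤ A ∧
      ∀ n ∈ S, CTyp n → n ≠ 0 → P n A := by
    intro S hS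
    induction S, hS using Set.Finite.induction_on with
    | empty => exact ⟨1, le_refl _, fun n hn => absurd hn (Set.notMem_empty n)⟩
    | @insert n₀ S' _ _ ih =>
      obtain ⟨A, hA, H⟩ := ih
      by_cases h0 : CTyp n₀ ∧ n₀ ≠ 0
      · obtain ⟨A₁, hA₁, H₁⟩ := hP n₀ h0.1 h0.2
        refine ⟨max A A₁, hA.trans (le_max_left _ _), ?_⟩
        intro n hn hct hn0
        rcases Set.mem_insert_iff.mp hn with rfl | h
        · exact mono _ _ _ hA₁ (le_max_right _ _) H₁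
        · exact mono _ _ _ hA (le_max_left _ _) (H n h hct hn0)
      · refine ⟨A, hA, ?_⟩
        intro n hn hct hn0
        rcases Set.mem_insert_iff.mp hn with rfl | h
        · exact absurd ⟨hct, hn0⟩ h0
        · exact H n h hct hn0
  obtain ⟨A, hA, H⟩ := key _ hfin
  exact ⟨A, hA, fun n h1 h2 h3 => H n h3 h1 h2⟩

/-- **the zeros off the line of the product over all the characters of several types** -/
theorem sd_core (M : Type) [Field M] [NumberField M] (i : ℕ) (h c : ℝ) (hh1 : h ≤ 1)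
    (hc0 : 0 < c) (hc : c < 2 * h - 1) : ∃ A : ℝ, 1 ≤ A ∧
    ∀ (N : ℕ) (n : Fin N → (M →+* ℂ) → ℕ), (∀ j, CTyp (n j)) → (∀ j, n j ≠ 0) →
      (∀ j φ, n j φ ≤ i) → ∀ (𝔮 : Ideal (𝓞 M)), 𝔮 ≠ ⊥ → ∀ htop : 𝔮 ≠ ⊤,
    ∀ F₁ : Fin N → (Mq 𝔮 →* ℂˣ), (∀ j, F₁ j ∈ Dn (n j) htop) →
    ∀ (K : Type) [Field K] [NumberField K] (ι : 𝓞 M →+* 𝓞 K)
      (art : Ideal (𝓞 M) → (𝓞 K ≃+* 𝓞 K)), IsRCF 𝔮 K ι art →
    ∃ G : ℂ → ℂ, Differentiable ℂ G ∧
      (∀ s : ℂ, 1 < s.re → HasProd (fun v : HeightOneSpectrum (𝓞 K) =>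
        ∏ j, (1 - ev ι htop (F₁ j) v * ((Ideal.absNorm v.asIdeal : ℕ) : ℂ) ^ (-s))⁻¹) (G s)) ∧
      (∀ s : ℂ, 1 ≤ s.re → G s ≠ 0) ∧
      ∀ T H t₁ δ : ℝ, 1 ≤ H → H ≤ T → |t₁| ≤ T → 0 ≤ δ →
        ((Ideal.absNorm 𝔮 : ℝ) * T ^ Module.finrank ℚ M) ^ h ≤ (Ideal.absNorm 𝔮 : ℝ) →
        (cnt G (off δ t₁ H) : ℝ) ≤ A * (N * (Nat.card (Cls (pi1 htop)) * Un 𝔮 * H *
          Real.log ((Ideal.absNorm 𝔮 : ℝ) * T ^ Module.finrank ℚ M) *
          ((Ideal.absNorm 𝔮 : ℝ) * T ^ Module.finrank ℚ M) ^ (-(c * δ)))) := by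
  classical
  obtain ⟨A, hA, H0⟩ := unif_types M i (fun n A =>
    ∀ (𝔮 : Ideal (𝓞 M)) (_ : 𝔮 ≠ ⊥) (htop : 𝔮 ≠ ⊤) (T H : ℝ), 1 ≤ H → H ≤ T →
      ((Ideal.absNorm 𝔮 : ℝ) * T ^ Module.finrank ℚ M) ^ h ≤ (Ideal.absNorm 𝔮 : ℝ) →
      ∀ L : (Mq 𝔮 →* ℂˣ) → ℂ → ℂ,
      (∀ F ∈ Dn n htop, Differentiable ℂ (L F) ∧ ∀ s : ℂ, 1 < s.re → L F s = LI (ofM' htop F) s) →
      ∀ t₁ : ℝ, |t₁| ≤ T → ∀ δ : ℝ, 0 ≤ δ →
      ∑ᶠ F ∈ Dn n htop, (cnt (L F) (off δ t₁ H) : ℝ) ≤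
        A * (Nat.card (Cls (pi1 htop)) * Un 𝔮 * H *
          Real.log ((Ideal.absNorm 𝔮 : ℝ) * T ^ Module.finrank ℚ M) *
          ((Ideal.absNorm 𝔮 : ℝ) * T ^ Module.finrank ℚ M) ^ (-(c * δ))))
    (fun n hn hn0 => dn_dens M hn hn0 h c hh1 hc0 hc) (by
      intro n A B _ hAB h1 𝔮 hbot htop T H hH hHT hX L hL t₁ ht₁ δ hδ
      refine (h1 𝔮 hbot htop T H hH hHT hX L hL t₁ ht₁ δ hδ).trans ?_
      refine mul_le_mul_of_nonneg_right hAB ?_
      have hT1 : 1 ≤ T := hH.trans hHT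
      have hN1 : (1 : ℝ) ≤ (Ideal.absNorm 𝔮 : ℝ) := by exact_mod_cast absNorm_pos' hbot
      have hTd : 1 ≤ T ^ Module.finrank ℚ M := one_le_pow₀ hT1
      have hlog : 0 ≤ Real.log ((Ideal.absNorm 𝔮 : ℝ) * T ^ Module.finrank ℚ M) :=
        Real.log_nonneg (one_le_mul_of_one_le_of_one_le hN1 hTd)
      positivity)
  refine ⟨A, hA, ?_⟩
  intro N n hn hn0 hni 𝔮 hbot htop F₁ hF₁ K _ _ ι art hK
  have hfin : ∀ j, (Dn (n j) htop).Finite := fun j => (Dn_card_le (n := n j) hbot htop).1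
  have hex : ∀ (j : Fin N) (F : Mq 𝔮 →* ℂˣ), ∃ L : ℂ → ℂ, F ∈ Dn (n j) htop →
      (Differentiable ℂ L ∧ ∀ s : ℂ, 1 < s.re → L s = LI (ofM' htop F) s) := by
    intro j F
    by_cases h : F ∈ Dn (n j) htop
    · obtain ⟨L, h1, h2⟩ := ent_of (hn j) (hn0 j) hbot htop h
      exact ⟨L, fun _ => ⟨h1, h2⟩⟩
    · exact ⟨fun _ => 0, fun h' => absurd h' h⟩
  choose L hL using hex
  obtain ⟨J, hJ⟩ : ∃ J : Fin N → Finset (Mq 𝔮 →* ℂˣ), J = fun j => (hfin j).toFinset := ⟨_, rfl⟩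
  have hJm : ∀ j F, F ∈ J j ↔ F ∈ Dn (n j) htop := fun j F => by
    rw [hJ, Set.Finite.mem_toFinset]
  have hLne : ∀ j, ∀ F ∈ J j, ∀ s : ℂ, 1 ≤ s.re → L j F s ≠ 0 := by
    intro j F hF s hs
    have hF' := (hJm j F).mp hF
    exact nv_Dn (hn j) (hn0 j) hbot htop hF' (hL j F hF').1 (hL j F hF').2 hs
  -- the functions for the single types
  obtain ⟨P, hP⟩ : ∃ P : Fin N → ℂ → ℂ, P = fun j s => ∏ F ∈ J j, L j F s := ⟨_, rfl⟩
  have hPd : ∀ j, Differentiable ℂ (P j) := by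
    intro j
    rw [hP]
    exact Differentiable.fun_finsetProd fun F hF => (hL j F ((hJm j F).mp hF)).1
  have hPne : ∀ j (s : ℂ), 1 ≤ s.re → P j s ≠ 0 := by
    intro j s hs
    rw [hP]
    simp only
    rw [Finset.prod_ne_zero_iff]
    exact fun F hF => hLne j F hF s hs
  have hPprod : ∀ j (s : ℂ), 1 < s.re → HasProd (fun v : HeightOneSpectrum (𝓞 K) =>
      (1 - ev ι htop (F₁ j) v * ((Ideal.absNorm v.asIdeal : ℕ) : ℂ) ^ (-s))⁻¹) (P j s) := by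
    intro j s hs
    have h1 := glue1 ι hbot htop art hK (hF₁ j) hs
    have h2 : P j s = ∏ᶠ F ∈ Dn (n j) htop, LI (ofM' htop F) s := by
      rw [finprod_mem_eq_finite_toFinset_prod _ (hfin j), hP, hJ]
      refine Finset.prod_congr rfl fun F hF => ?_
      exact (hL j F ((hfin j).mem_toFinset.mp hF)).2 s hs
    rw [h2]
    exact h1
  obtain ⟨G, hG⟩ : ∃ G : ℂ → ℂ, G = fun s => ∏ j, P j s := ⟨_, rfl⟩
  have hGd : Differentiable ℂ G := by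
    rw [hG]
    exact Differentiable.fun_finsetProd fun j _ => hPd j
  have hGne : ∀ s : ℂ, 1 ≤ s.re → G s ≠ 0 := by
    intro s hs
    rw [hG]
    simp only
    rw [Finset.prod_ne_zero_iff]
    exact fun j _ => hPne j s hs
  refine ⟨G, hGd, ?_, hGne, ?_⟩
  · intro s hs
    rw [hG]
    exact hasProd_prod fun j _ => hPprod j s hs
  · intro T H t₁ δ hH hHT ht₁ hδ hX
    have e1 : cnt G (off δ t₁ H) = ∑ j, cnt (P j) (off δ t₁ H) := by
      rw [hG, cnt_prod Finset.univ P (fun j _ s _ => (hPd j).analyticAt s)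
        (fun j _ s _ => order_ne_top (hPd j) (hPne j 2 (by norm_num)) s)
        (fun j _ => zeros_bdd (hPd j) (hPne j 2 (by norm_num)) off_bdd)]
    have e2 : ∀ j, cnt (P j) (off δ t₁ H) = ∑ F ∈ J j, cnt (L j F) (off δ t₁ H) := by
      intro j
      rw [hP]
      exact cnt_prod (J j) (L j) (fun F hF s _ => (hL j F ((hJm j F).mp hF)).1.analyticAt s)
        (fun F hF s _ => order_ne_top (hL j F ((hJm j F).mp hF)).1
          (hLne j F hF 2 (by norm_num)) s)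
        (fun F hF => zeros_bdd (hL j F ((hJm j F).mp hF)).1 (hLne j F hF 2 (by norm_num))
          off_bdd)
    have e3 : ∀ j, (cnt (P j) (off δ t₁ H) : ℝ) ≤
        A * (Nat.card (Cls (pi1 htop)) * Un 𝔮 * H *
          Real.log ((Ideal.absNorm 𝔮 : ℝ) * T ^ Module.finrank ℚ M) *
          ((Ideal.absNorm 𝔮 : ℝ) * T ^ Module.finrank ℚ M) ^ (-(c * δ))) := by
      intro j
      have e4 := H0 (n j) (hn j) (hn0 j) (hni j) 𝔮 hbot htop T H hH hHT hX (L j) (hL j) t₁ ht₁ δ hδ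
      rw [finsum_mem_eq_finite_toFinset_sum _ (hfin j)] at e4
      rw [e2, Nat.cast_sum, hJ]
      exact e4
    rw [e1, Nat.cast_sum]
    refine (Finset.sum_le_sum fun j _ => e3 j).trans (le_of_eq ?_)
    rw [Finset.sum_const, Finset.card_univ, Fintype.card_fin, nsmul_eq_mul]
    ring

end Pool.Agent.H440.SD
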