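import Pool.Agent.H440.SD.Sym
import Pool.Agent.H440.CO.Twist

/-!
# The density of the zeros off the central line for all the characters of a type modulo `𝔮`
(helper440)
-/

set_option autoImplicit false
set_option linter.unusedSectionVars false

open NumberField Complex Filter Topology MeasureTheory Set

namespace Pool.Agent.H440.SD

open Pool.Agent.Y773 (TPos LI zz)
open Pool.Agent.Y767 (Mq Mq_cop Mq_ne_bot Cls cls eq_of_LI)
open Pool.Agent.Y773.IQ (tM ofM' ofM'_pos ofM'_supp cop_mono absNorm_pos' divisor_bound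
  norm_le_tau_phi)
open Pool.Agent.N784.HC
open Pool.Agent.N784.CZ
open Pool.Agent.N784.AD (pi1 Un one_le_Un hK card_units_le)
open Pool.Agent.N833.CZ (norm_ofM'_le)
open Pool.Agent.H82R3.EK (cnt cnt_eq_sum cnt_prod)

/-- the part of the strip at a distance of at least `δ` from the central line -/
def off (δ t₁ H : ℝ) : Set ℂ :=
  {s : ℂ | 0 < s.re ∧ s.re < 1 ∧ δ ≤ |s.re - 1 / 2| ∧ t₁ ≤ s.im ∧ s.im ≤ t₁ + H}

/-- the right half of it -/
def offR (δ t₁ H : ℝ) : Set ℂ :=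
  {s : ℂ | 0 < s.re ∧ s.re < 1 ∧ 1 / 2 + δ ≤ s.re ∧ t₁ ≤ s.im ∧ s.im ≤ t₁ + H}

lemma off_bdd {δ t₁ H : ℝ} : ∀ s ∈ off δ t₁ H, ‖s‖ ≤ 1 + (|t₁| + |H|) := by
  rintro s ⟨h1, h2, -, h3, h4⟩
  refine (Complex.norm_le_abs_re_add_abs_im s).trans (add_le_add ?_ ?_)
  · rw [abs_of_pos h1]; exact h2.le
  · rw [abs_le]
    constructor
    · have := neg_abs_le t₁
      have := abs_nonneg H
      linarith
    · have := le_abs_self t₁
      have := le_abs_self H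
      linarith

lemma offR_bdd {δ t₁ H : ℝ} : ∀ s ∈ offR δ t₁ H, ‖s‖ ≤ 1 + (|t₁| + |H|) := by
  rintro s ⟨h1, h2, -, h3, h4⟩
  refine (Complex.norm_le_abs_re_add_abs_im s).trans (add_le_add ?_ ?_)
  · rw [abs_of_pos h1]; exact h2.le
  · rw [abs_le]
    constructor
    · have := neg_abs_le t₁
      have := abs_nonneg H
      linarith
    · have := le_abs_self t₁
      have := le_abs_self H
      linarith

/-- the zeros on the left are the reflected zeros on the right -/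
lemma cnt_off_le {G : ℂ → ℂ} (hG : Differentiable ℂ G) {w : ℂ} (hw : G w ≠ 0)
    (hs : ∀ s : ℂ, 0 < s.re → s.re < 1 →
      analyticOrderAt G (1 - (starRingEnd ℂ) s) = analyticOrderAt G s) (δ t₁ H : ℝ) :
    cnt G (off δ t₁ H) ≤ 2 * cnt G (offR δ t₁ H) := by
  classical
  have hf1 : {s : ℂ | s ∈ off δ t₁ H ∧ G s = 0}.Finite := zeros_bdd hG hw off_bdd
  have hf2 : {s : ℂ | s ∈ offR δ t₁ H ∧ G s = 0}.Finite := zeros_bdd hG hw offR_bdd
  have hzero : ∀ s : ℂ, 0 < s.re → s.re < 1 → G s = 0 → G (1 - (starRingEnd ℂ) s) = 0 := by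
    intro s h0 h1 h2
    have h3 := hs s h0 h1
    by_contra h4
    rw [(hG.analyticAt _).analyticOrderAt_eq_zero.mpr h4] at h3
    exact ((hG.analyticAt s).analyticOrderAt_eq_zero.mp h3.symm) h2
  have e1 : cnt G (off δ t₁ H) = ∑ s ∈ hf1.toFinset, H370.mult G s := by
    unfold cnt
    rw [finsum_mem_eq_finite_toFinset_sum _ hf1]
  have e2 : cnt G (offR δ t₁ H) = ∑ s ∈ hf2.toFinset, H370.mult G s := by
    unfold cnt
    rw [finsum_mem_eq_finite_toFinset_sum _ hf2]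
  have hinj : Function.Injective (fun s : ℂ => 1 - (starRingEnd ℂ) s) := by
    intro a b h
    simp only [sub_right_inj] at h
    exact (starRingEnd ℂ).injective h
  have hsub : hf1.toFinset ⊆ hf2.toFinset ∪
      hf2.toFinset.image (fun s : ℂ => 1 - (starRingEnd ℂ) s) := by
    intro s h
    rw [Set.Finite.mem_toFinset] at h
    obtain ⟨⟨a1, a2, a3, a4, a5⟩, a6⟩ := h
    rw [Finset.mem_union, Finset.mem_image]
    rcases le_abs'.mp a3 with h7 | h7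
    · right
      refine ⟨1 - (starRingEnd ℂ) s, ?_, by simp⟩
      rw [Set.Finite.mem_toFinset]
      refine ⟨⟨?_, ?_, ?_, ?_, ?_⟩, hzero s a1 a2 a6⟩
      · rw [Complex.sub_re, Complex.one_re, Complex.conj_re]; linarith
      · rw [Complex.sub_re, Complex.one_re, Complex.conj_re]; linarith
      · rw [Complex.sub_re, Complex.one_re, Complex.conj_re]; linarith
      · rw [Complex.sub_im, Complex.one_im, Complex.conj_im]; linarith
      · rw [Complex.sub_im, Complex.one_im, Complex.conj_im]; linarith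
    · left
      rw [Set.Finite.mem_toFinset]
      exact ⟨⟨a1, a2, by linarith, a4, a5⟩, a6⟩
  have himg : ∑ s ∈ hf2.toFinset.image (fun s : ℂ => 1 - (starRingEnd ℂ) s), H370.mult G s =
      ∑ s ∈ hf2.toFinset, H370.mult G s := by
    rw [Finset.sum_image fun a _ b _ h => hinj h]
    refine Finset.sum_congr rfl fun s h => ?_
    rw [Set.Finite.mem_toFinset] at h
    unfold H370.mult analyticOrderNatAt
    rw [hs s h.1.1 h.1.2.1]
  rw [e1, e2]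
  calc ∑ s ∈ hf1.toFinset, H370.mult G s ≤ ∑ s ∈ hf2.toFinset ∪
      hf2.toFinset.image (fun s : ℂ => 1 - (starRingEnd ℂ) s), H370.mult G s :=
        Finset.sum_le_sum_of_subset hsub
    _ ≤ ∑ s ∈ hf2.toFinset, H370.mult G s +
        ∑ s ∈ hf2.toFinset.image (fun s : ℂ => 1 - (starRingEnd ℂ) s), H370.mult G s := by
        rw [← Finset.sum_union_inter]
        exact Nat.le_add_right _ _
    _ = _ := by rw [himg]; ring

section
variable {K : Type} [Field K] [NumberField K] {n : (K →+* ℂ) → ℕ}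

/-- few zeros of the L-functions of the characters of conductor one -/
theorem dn0_box (hn : CTyp n) (hn0 : n ≠ 0) :
    ∃ B : ℝ, 0 ≤ B ∧ ∀ (𝔮 : Ideal (𝓞 K)) (_ : 𝔮 ≠ ⊥) (htop : 𝔮 ≠ ⊤) (F : Mq 𝔮 →* ℂˣ),
      F ∈ Dn0 n 𝔮 → ∀ L : ℂ → ℂ, Differentiable ℂ L → (∀ s : ℂ, 1 < s.re → L s = LI (ofM' htop F) s) →
      ∀ T : ℝ, 1 ≤ T → ∀ W : Set ℂ, W ⊆ bx T → (cnt L W : ℝ) ≤ B * T ^ 2 := by
  classical
  obtain ⟨b2, t2⟩ := span_two K
  obtain ⟨A₀, hA₀, hD⟩ := Pool.Agent.Y772.DK.t_dirK K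
  obtain ⟨hfin, -⟩ := Dn_card_le (n := n) b2 t2
  have hex : ∀ F'' : Mq (Ideal.span {(2 : 𝓞 K)}) →* ℂˣ, ∃ (L : ℂ → ℂ) (C' : ℝ),
      F'' ∈ Dn n t2 → Differentiable ℂ L ∧ (∀ s : ℂ, 1 < s.re → L s = LI (ofM' t2 F'') s) ∧
      L 2 ≠ 0 ∧ ∀ T : ℝ, 1 ≤ T →
        ∑ᶠ s ∈ {s : ℂ | 0 < s.re ∧ s.re < 1 ∧ |s.im| ≤ 2 * T ∧ L s = 0},
          (analyticOrderNatAt L s : ℝ) ≤ C' * T ^ 2 := by
    intro F''
    by_cases h : F'' ∈ Dn n t2
    · obtain ⟨L, C, h1, h2, h3⟩ := Pool.Agent.N603.CZ.t_gro K n hn hn0 _ b2 t2 F'' h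
      have hn1 := norm_ofM'_le b2 t2 h
      obtain ⟨-, -, d3, -, -, d6, -⟩ := hD _ hn1
      obtain ⟨C', hC'⟩ := Pool.Agent.N768.CZ.t_cru L C A₀⁻¹ h1 (by positivity) (fun s hs => by
        rw [h2 s (by rw [hs]; norm_num)]
        exact d6 s hs.ge) h3
      refine ⟨L, C', fun _ => ⟨h1, h2, ?_, fun T hT => (hC' T hT).2⟩⟩
      rw [h2 2 (by norm_num)]
      exact d3 2 (by norm_num)
    · exact ⟨fun _ => 0, 0, fun h' => absurd h' h⟩
  choose L2 C2 h2 using hex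
  refine ⟨∑ F'' ∈ hfin.toFinset, |C2 F''|, Finset.sum_nonneg fun _ _ => abs_nonneg _, ?_⟩
  intro 𝔮 hbot htop F hF L hL hLs T hT W hW
  obtain ⟨F'', hF'', hord⟩ := dn0_red hbot htop hF
  obtain ⟨g1, g2, g3, g4⟩ := h2 F'' hF''
  have ho := hord L (L2 F'') hL g1 hLs g2
  have hT2 : 0 ≤ T ^ 2 := by positivity
  have hC : C2 F'' ≤ ∑ F'' ∈ hfin.toFinset, |C2 F''| :=
    (le_abs_self _).trans (Finset.single_le_sum (f := fun F => |C2 F|) (fun _ _ => abs_nonneg _)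
      (hfin.mem_toFinset.mpr hF''))
  have hbxb : ∀ s ∈ bx T, ‖s‖ ≤ 1 + 2 * T := by
    rintro s ⟨a, b, c⟩
    refine (Complex.norm_le_abs_re_add_abs_im s).trans (add_le_add ?_ c)
    rw [abs_of_pos a]
    exact b.le
  have hbfin : {s : ℂ | s ∈ bx T ∧ L2 F'' s = 0}.Finite := zeros_bdd g1 g3 hbxb
  have hcnt : (cnt (L2 F'') (bx T) : ℝ) ≤ C2 F'' * T ^ 2 := by
    refine le_trans (le_of_eq ?_) (g4 T hT)
    have hset : {s : ℂ | 0 < s.re ∧ s.re < 1 ∧ |s.im| ≤ 2 * T ∧ L2 F'' s = 0} =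
        {s : ℂ | s ∈ bx T ∧ L2 F'' s = 0} := by
      ext s
      simp only [bx, Set.mem_ofPred_eq, and_assoc]
    unfold cnt
    rw [hset, finsum_mem_eq_finite_toFinset_sum _ hbfin,
      finsum_mem_eq_finite_toFinset_sum _ hbfin]
    push_cast
    rfl
  have h5 : cnt L W = cnt (L2 F'') W := cnt_congr hL g1 fun s hs => ho s (hW hs).1
  have h6 : cnt (L2 F'') W ≤ cnt (L2 F'') (bx T) := cnt_mono hW hbfin
  calc (cnt L W : ℝ) = cnt (L2 F'') W := by rw [h5]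
    _ ≤ cnt (L2 F'') (bx T) := by exact_mod_cast h6
    _ ≤ C2 F'' * T ^ 2 := hcnt
    _ ≤ _ := mul_le_mul_of_nonneg_right hC hT2

/-- a nonzero type exists only if there is a complex place -/
lemma two_le_deg (hn : CTyp n) (hn0 : n ≠ 0) : 2 ≤ Module.finrank ℚ K := by
  classical
  obtain ⟨φ, hφ⟩ : ∃ φ, n φ ≠ 0 := by
    by_contra h
    push Not at h
    exact hn0 (funext h)
  have h1 : ComplexEmbedding.conjugate φ ≠ φ := by
    intro h
    rcases hn φ with h2 | h2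
    · exact hφ h2
    · apply hφ
      have h3 : n (ComplexEmbedding.conjugate φ) = 0 := h2
      rwa [h] at h3
  rw [← Embeddings.card K ℂ]
  have h2 : ({ComplexEmbedding.conjugate φ, φ} : Finset (K →+* ℂ)).card = 2 :=
    Finset.card_pair h1
  rw [← h2]
  exact Finset.card_le_univ _

end

/-- **the density of the zeros off the line for all the characters modulo `𝔮` of a given type** -/
theorem dn_dens (K : Type) [Field K] [NumberField K] {n : (K →+* ℂ) → ℕ}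
    (hn : CTyp n) (hn0 : n ≠ 0) (h c : ℝ) (hh1 : h ≤ 1) (hc0 : 0 < c) (hc : c < 2 * h - 1) :
    ∃ A : ℝ, 1 ≤ A ∧ ∀ (𝔮 : Ideal (𝓞 K)) (_ : 𝔮 ≠ ⊥) (htop : 𝔮 ≠ ⊤) (T H : ℝ), 1 ≤ H → H ≤ T →
      ((Ideal.absNorm 𝔮 : ℝ) * T ^ Module.finrank ℚ K) ^ h ≤ (Ideal.absNorm 𝔮 : ℝ) →
      ∀ L : (Mq 𝔮 →* ℂˣ) → ℂ → ℂ,
      (∀ F ∈ Dn n htop, Differentiable ℂ (L F) ∧ ∀ s : ℂ, 1 < s.re → L F s = LI (ofM' htop F) s) →
      ∀ t₁ : ℝ, |t₁| ≤ T → ∀ δ : ℝ, 0 ≤ δ →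
      ∑ᶠ F ∈ Dn n htop, (cnt (L F) (off δ t₁ H) : ℝ) ≤
        A * (Nat.card (Cls (pi1 htop)) * Un 𝔮 * H *
          Real.log ((Ideal.absNorm 𝔮 : ℝ) * T ^ Module.finrank ℚ K) *
          ((Ideal.absNorm 𝔮 : ℝ) * T ^ Module.finrank ℚ K) ^ (-(c * δ))) := by
  classical
  obtain ⟨A₁, hA₁, H1⟩ := den_core tt_lsp K hn h c hh1 hc0 hc
  obtain ⟨B, hB0, HB⟩ := dn0_box hn hn0
  obtain ⟨A₂, hA₂, hP⟩ := primF K hn
  obtain ⟨d, hd⟩ : ∃ d : ℕ, d = Module.finrank ℚ K := ⟨_, rfl⟩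
  have hd2 : 2 ≤ d := by rw [hd]; exact two_le_deg hn hn0
  have hhalf : 1 / 2 < h := by linarith
  obtain ⟨ε, hε⟩ : ∃ ε : ℝ, ε = (2 * h - 1) / (2 * h) := ⟨_, rfl⟩
  have hε0 : 0 < ε := by
    rw [hε]
    have : 0 < 2 * h - 1 := by linarith
    positivity
  have hhε : h * ε = (2 * h - 1) / 2 := by
    rw [hε]
    field_simp
  obtain ⟨C, hC1, hdiv⟩ := divisor_bound K hε0
  obtain ⟨A₃, hA₃⟩ : ∃ A₃ : ℝ, A₃ = hK K * B * C / Real.log 2 := ⟨_, rfl⟩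
  have hlog2 : 0 < Real.log 2 := Real.log_pos (by norm_num)
  have hh0 : (0 : ℝ) ≤ hK K := Nat.cast_nonneg _
  have hA₃0 : 0 ≤ A₃ := by rw [hA₃]; positivity
  refine ⟨2 * A₁ + A₃, by linarith, ?_⟩
  intro 𝔮 hbot htop T H hH hHT hXh L hL t₁ ht₁ δ hδ
  have hT1 : 1 ≤ T := hH.trans hHT
  obtain ⟨Nq, hNq⟩ : ∃ Nq : ℝ, Nq = (Ideal.absNorm 𝔮 : ℝ) := ⟨_, rfl⟩
  have hN2 : 2 ≤ Nq := by
    rw [hNq]
    exact_mod_cast two_le_absNorm hbot htop
  have hN0 : 0 < Nq := by linarith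
  obtain ⟨X, hX⟩ : ∃ X : ℝ, X = Nq * T ^ d := ⟨_, rfl⟩
  have hTd1 : 1 ≤ T ^ d := one_le_pow₀ hT1
  have hX2 : 2 ≤ X := by rw [hX]; nlinarith
  have hX0 : 0 < X := by linarith
  have hlX : Real.log 2 ≤ Real.log X := Real.log_le_log (by norm_num) hX2
  have hlX0 : 0 < Real.log X := lt_of_lt_of_le hlog2 hlX
  obtain ⟨hfin, -⟩ := Dn_card_le (n := n) hbot htop
  obtain ⟨hffin, -⟩ := FamN_finite (n := n) hbot htop
  -- the L-functions of the primitive characters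
  have hexP : ∀ ψ : Ideal (𝓞 K) →*₀ ℂ, ∃ G : ℂ → ℂ, (ψ ∈ FamN n 𝔮 → Differentiable ℂ G ∧
      (∀ s : ℂ, 1 < s.re → G s = LI ψ s) ∧ ∀ s : ℂ, 0 < s.re → s.re < 1 →
        analyticOrderAt G (1 - (starRingEnd ℂ) s) = analyticOrderAt G s) := by
    intro ψ
    by_cases h : ψ ∈ FamN n 𝔮
    · obtain ⟨𝔣, h1, h2, h3⟩ := h
      obtain ⟨-, μ, G, hμ, hFE, hGL⟩ := feM hn h2 h3
      refine ⟨G, fun _ => ⟨hFE.diff, hGL, fun s h0 h1 => ?_⟩⟩
      refine symm_order ?_ (fun i => (hμ i).1) hFE h0 h1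
      have e1 : Ideal.absNorm 𝔣 ≠ 0 := by
        rw [Ne, Ideal.absNorm_eq_zero_iff]
        exact h3.ne_bot
      have e2 : Ideal.absNorm (differentIdeal ℤ (𝓞 K)) ≠ 0 := by
        rw [Ne, Ideal.absNorm_eq_zero_iff]
        exact differentIdeal_ne_bot
      exact_mod_cast Nat.pos_of_ne_zero (mul_ne_zero e1 e2)
    · exact ⟨fun _ => 0, fun h' => absurd h' h⟩
  choose G hG using hexP
  have hGne : ∀ ψ ∈ FamN n 𝔮, G ψ 2 ≠ 0 := by
    intro ψ hψ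
    rw [(hG ψ hψ).2.1 2 (by norm_num)]
    exact LI_ne (FamN_norm_le hψ) (by norm_num)
  have hcnt : ∀ ψ ∈ FamN n 𝔮, ∀ W : Set ℂ, (∀ s ∈ W, 0 < s.re) →
      cnt (L (tM 𝔮 ψ)) W = cnt (G ψ) W := by
    intro ψ hψ W hW
    have h1 := hL (tM 𝔮 ψ) (tM_mem htop hψ)
    have h2 := hG ψ hψ
    have h3 : L (tM 𝔮 ψ) = fun s => G ψ s * EB 𝔮 ψ s :=
      eq_of_LI h1.1 (h2.1.mul (EB_diff hbot ψ)) (fun s hs => by
        rw [h1.2 s hs, h2.2.1 s hs]
        exact LI_ind hbot (FamN_norm_le hψ) (ind_pos htop hψ) (ind_zero htop ψ) hs)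
    refine cnt_congr h1.1 h2.1 fun s hs => ?_
    rw [h3, order_EB hbot (FamN_norm_le hψ) h2.1 (hW s hs)]
  obtain ⟨J, hJ⟩ : ∃ J : Finset (Ideal (𝓞 K) →*₀ ℂ), J = hffin.toFinset := ⟨_, rfl⟩
  have hJm : ∀ ψ, ψ ∈ J ↔ ψ ∈ FamN n 𝔮 := fun ψ => by rw [hJ, Set.Finite.mem_toFinset]
  -- the zeros on the right
  have hfz : ∀ ψ ∈ FamN n 𝔮, {s : ℂ | s ∈ offR δ t₁ H ∧ G ψ s = 0}.Finite := fun ψ hψ =>
    zeros_bdd (hG ψ hψ).1 (hGne ψ hψ) offR_bdd
  obtain ⟨Z, hZ⟩ : ∃ Z : (Ideal (𝓞 K) →*₀ ℂ) → Finset ℂ, ∀ ψ ∈ FamN n 𝔮, ∀ x, x ∈ Z ψ ↔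
      (x ∈ offR δ t₁ H ∧ G ψ x = 0) := by
    refine ⟨fun ψ => if h : ψ ∈ FamN n 𝔮 then (hfz ψ h).toFinset else ∅, fun ψ hψ x => ?_⟩
    simp only [dif_pos hψ]
    rw [Set.Finite.mem_toFinset]
    rfl
  have hcZ : ∀ ψ ∈ FamN n 𝔮, cnt (G ψ) (offR δ t₁ H) =
      ∑ z ∈ Z ψ, analyticOrderNatAt (G ψ) z := by
    intro ψ hψ
    rw [cnt_eq_sum (Z ψ) (fun s hs => ((hZ ψ hψ s).mp hs).1)
      (fun s hs h0 => (hZ ψ hψ s).mpr ⟨hs, h0⟩) (fun s _ => (hG ψ hψ).1.analyticAt s)]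
    rfl
  obtain ⟨Y, hY⟩ : ∃ Y : ℝ, Y = Nat.card (Cls (pi1 htop)) * Un 𝔮 * H *
          Real.log X * X ^ (-(c * δ)) := ⟨_, rfl⟩
  have hUn : (1 : ℝ) ≤ (Un 𝔮 : ℝ) := by exact_mod_cast one_le_Un hbot
  have hY0 : 0 ≤ Y := by rw [hY]; positivity
  have hright : ∑ ψ ∈ J, ∑ z ∈ Z ψ, (analyticOrderNatAt (G ψ) z : ℝ) ≤ A₁ * Y := by
    have h1 := H1 𝔮 hbot htop T H hH hHT hXh J (fun ψ hψ => (hJm ψ).mp hψ) G
      (fun ψ hψ => ⟨(hG ψ ((hJm ψ).mp hψ)).1, (hG ψ ((hJm ψ).mp hψ)).2.1⟩) t₁ ht₁ δ hδ Z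
      (fun ψ hψ z hz => by
        obtain ⟨⟨-, -, b1, b2, b3⟩, -⟩ := (hZ ψ ((hJm ψ).mp hψ) z).mp hz
        exact ⟨b1, b2, b3⟩)
    rw [hY, hX, hNq, hd]
    exact h1
  have hfirst : ∑ ψ ∈ J, (cnt (G ψ) (off δ t₁ H) : ℝ) ≤ 2 * A₁ * Y := by
    have h1 : ∀ ψ ∈ J, (cnt (G ψ) (off δ t₁ H) : ℝ) ≤
        2 * ∑ z ∈ Z ψ, (analyticOrderNatAt (G ψ) z : ℝ) := by
      intro ψ hψ
      have hψ' := (hJm ψ).mp hψ
      have h2 := cnt_off_le (hG ψ hψ').1 (hGne ψ hψ') (hG ψ hψ').2.2 δ t₁ H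
      rw [hcZ ψ hψ'] at h2
      exact_mod_cast h2
    refine (Finset.sum_le_sum h1).trans ?_
    rw [← Finset.mul_sum]
    linarith
  -- the characters of conductor one
  have hD0fin : (Dn0 n 𝔮).Finite := hfin.subset (Dn0_sub htop)
  have hD0card : (((Dn0 n 𝔮).ncard : ℕ) : ℝ) ≤ hK K := by
    exact_mod_cast Dn0_card (n := n) hbot htop
  have hsecond : ∑ F ∈ hD0fin.toFinset, (cnt (L F) (off δ t₁ H) : ℝ) ≤ A₃ * Y := by
    by_cases hδ2 : δ ≤ 1 / 2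
    · have hbox : off δ t₁ H ⊆ bx T := by
        rintro s ⟨a1, a2, -, a4, a5⟩
        refine ⟨a1, a2, ?_⟩
        rw [abs_le] at ht₁ ⊢
        constructor <;> linarith
      have h1 : ∀ F ∈ hD0fin.toFinset, (cnt (L F) (off δ t₁ H) : ℝ) ≤ B * T ^ 2 := by
        intro F hF
        rw [Set.Finite.mem_toFinset] at hF
        have h2 := hL F (Dn0_sub htop hF)
        exact HB 𝔮 hbot htop F hF (L F) h2.1 h2.2 T hT1 _ hbox
      refine (Finset.sum_le_sum h1).trans ?_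
      rw [Finset.sum_const, nsmul_eq_mul]
      rw [Set.ncard_eq_toFinset_card _ hD0fin] at hD0card
      have h2 : (hD0fin.toFinset.card : ℝ) * (B * T ^ 2) ≤ hK K * (B * T ^ 2) :=
        mul_le_mul_of_nonneg_right hD0card (by positivity)
      refine h2.trans ?_
      -- `T ^ 2 ≤ X ^ (1 - h)`
      have hXh' : X ^ h ≤ Nq := by rw [hX, hNq, hd]; exact hXh
      have h3 : T ^ 2 ≤ X ^ (1 - h) := by
        have e1 : T ^ 2 ≤ T ^ d := pow_le_pow_right₀ hT1 hd2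
        have e2 : X ^ h * T ^ d ≤ X := by
          calc X ^ h * T ^ d ≤ Nq * T ^ d := mul_le_mul_of_nonneg_right hXh' (by positivity)
            _ = X := hX.symm
        have e3 : X ^ h * X ^ (1 - h) = X := by
          rw [← Real.rpow_add hX0]
          have : h + (1 - h) = 1 := by ring
          rw [this, Real.rpow_one]
        have e4 : 0 < X ^ h := Real.rpow_pos_of_pos hX0 _
        have e5 : T ^ d ≤ X ^ (1 - h) := by
          refine le_of_mul_le_mul_left ?_ e4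
          rw [e3]
          exact e2
        exact e1.trans e5
      -- the size of the class group
      have h4 : Nq ≤ C * Nq ^ ε * (Nat.card (Cls (pi1 htop)) * Un 𝔮) := by
        have e1 := norm_le_tau_phi hbot
        have e2 := card_units_le hbot htop
        have e3 := hdiv 𝔮 hbot
        have e4 : (Ideal.absNorm 𝔮 : ℝ) ≤
            (Pool.Agent.Y773.IQ.dv 𝔮).ncard * Nat.card (𝓞 K ⧸ 𝔮)ˣ := by exact_mod_cast e1
        have e5 : (Nat.card (𝓞 K ⧸ 𝔮)ˣ : ℝ) ≤ Un 𝔮 * Nat.card (Cls (pi1 htop)) := by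
          exact_mod_cast e2
        rw [← hNq] at e3 e4
        calc Nq ≤ (Pool.Agent.Y773.IQ.dv 𝔮).ncard * Nat.card (𝓞 K ⧸ 𝔮)ˣ := e4
          _ ≤ (C * Nq ^ ε) * (Un 𝔮 * Nat.card (Cls (pi1 htop))) :=
            mul_le_mul e3 e5 (Nat.cast_nonneg _) (by positivity)
          _ = _ := by ring
      have h5 : Nq ^ (1 - ε) ≤ C * (Nat.card (Cls (pi1 htop)) * Un 𝔮) := by
        have e1 : 0 < Nq ^ ε := Real.rpow_pos_of_pos hN0 _
        refine le_of_mul_le_mul_left ?_ e1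
        rw [← Real.rpow_add hN0]
        have : ε + (1 - ε) = 1 := by ring
        rw [this, Real.rpow_one]
        linarith
      have hε1 : ε < 1 := by
        rw [hε, div_lt_one (by linarith)]
        linarith
      have h6 : X ^ (h * (1 - ε)) ≤ C * (Nat.card (Cls (pi1 htop)) * Un 𝔮) := by
        refine le_trans ?_ h5
        rw [Real.rpow_mul hX0.le]
        exact Real.rpow_le_rpow (Real.rpow_nonneg hX0.le _) hXh' (by linarith)
      have h7 : X ^ (1 - h) ≤ X ^ (h * (1 - ε)) * X ^ (-(c * δ)) := by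
        rw [← Real.rpow_add hX0]
        refine Real.rpow_le_rpow_of_exponent_le (by linarith) ?_
        have e1 : c * δ ≤ c * (1 / 2) := mul_le_mul_of_nonneg_left hδ2 hc0.le
        have e2 : h * (1 - ε) = h - h * ε := by ring
        rw [e2, hhε]
        linarith
      have h8 : X ^ (1 - h) ≤ C * (Nat.card (Cls (pi1 htop)) * Un 𝔮) * X ^ (-(c * δ)) :=
        h7.trans (mul_le_mul_of_nonneg_right h6 (Real.rpow_nonneg hX0.le _))
      have h9 : (Nat.card (Cls (pi1 htop)) : ℝ) * Un 𝔮 * X ^ (-(c * δ)) * Real.log 2 ≤ Y := by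
        rw [hY]
        have e1 : 0 ≤ (Nat.card (Cls (pi1 htop)) : ℝ) * Un 𝔮 * X ^ (-(c * δ)) := by positivity
        calc (Nat.card (Cls (pi1 htop)) : ℝ) * Un 𝔮 * X ^ (-(c * δ)) * Real.log 2 ≤
            (Nat.card (Cls (pi1 htop)) : ℝ) * Un 𝔮 * X ^ (-(c * δ)) * (H * Real.log X) := by
              refine mul_le_mul_of_nonneg_left ?_ e1
              nlinarith
          _ = _ := by ring
      calc (hK K : ℝ) * (B * T ^ 2) ≤ hK K * (B * (C * (Nat.card (Cls (pi1 htop)) * Un 𝔮) *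
            X ^ (-(c * δ)))) := by
            refine mul_le_mul_of_nonneg_left (mul_le_mul_of_nonneg_left (h3.trans h8) hB0) hh0
        _ = A₃ * ((Nat.card (Cls (pi1 htop)) : ℝ) * Un 𝔮 * X ^ (-(c * δ)) * Real.log 2) := by
            rw [hA₃]
            field_simp
        _ ≤ A₃ * Y := mul_le_mul_of_nonneg_left h9 hA₃0
    · have h1 : off δ t₁ H = ∅ := by
        ext s
        simp only [Set.mem_empty_iff_false, iff_false]
        rintro ⟨a1, a2, a3, -, -⟩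
        have h2 : |s.re - 1 / 2| < 1 / 2 := by
          rw [abs_lt]
          constructor <;> linarith
        linarith
      have h2 : ∀ F : ℂ → ℂ, cnt F (off δ t₁ H) = 0 := by
        intro F
        unfold cnt
        rw [h1]
        simp
      rw [Finset.sum_eq_zero fun F _ => by rw [h2]; simp]
      positivity
  -- everything
  have hsplit : ∑ F ∈ hfin.toFinset, (cnt (L F) (off δ t₁ H) : ℝ) ≤
      ∑ F ∈ J.image (tM 𝔮), (cnt (L F) (off δ t₁ H) : ℝ) +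
      ∑ F ∈ hD0fin.toFinset, (cnt (L F) (off δ t₁ H) : ℝ) := by
    rw [← Finset.sum_union_inter]
    have h1 : hfin.toFinset ⊆ J.image (tM 𝔮) ∪ hD0fin.toFinset := by
      intro F hF
      rw [Set.Finite.mem_toFinset] at hF
      rw [Finset.mem_union]
      rcases dn_cases hbot htop hF with h | ⟨ψ, h2, h3⟩
      · right
        rwa [Set.Finite.mem_toFinset]
      · left
        rw [Finset.mem_image]
        exact ⟨ψ, (hJm ψ).mpr h2, h3⟩
    have h2 := Finset.sum_le_sum_of_subset_of_nonneg h1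
      (f := fun F => (cnt (L F) (off δ t₁ H) : ℝ)) (fun _ _ _ => Nat.cast_nonneg _)
    refine h2.trans (le_add_of_nonneg_right ?_)
    exact Finset.sum_nonneg fun _ _ => Nat.cast_nonneg _
  have hoff : ∀ s ∈ off δ t₁ H, 0 < s.re := fun s hs => hs.1
  have himg : ∑ F ∈ J.image (tM 𝔮), (cnt (L F) (off δ t₁ H) : ℝ) =
      ∑ ψ ∈ J, (cnt (G ψ) (off δ t₁ H) : ℝ) := by
    rw [Finset.sum_image (fun ψ hψ ψ' hψ' h => tM_inj hbot htop ((hJm ψ).mp hψ)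
        ((hJm ψ').mp hψ') h)]
    exact Finset.sum_congr rfl (fun ψ hψ => by rw [hcnt ψ ((hJm ψ).mp hψ) _ hoff])
  rw [himg] at hsplit
  rw [finsum_mem_eq_finite_toFinset_sum _ hfin]
  have hfinal : ∑ F ∈ hfin.toFinset, (cnt (L F) (off δ t₁ H) : ℝ) ≤ (2 * A₁ + A₃) * Y := by
    linarith
  rw [hY, hX, hNq, hd] at hfinal
  exact hfinal

end Pool.Agent.H440.SD
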