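import Pool.Graph.R_pool_sql_team_seeded_63374d34.N784.CZ.Crx

/-!
# Symmetry of the zeros (helper440)
-/

set_option autoImplicit false
set_option linter.unusedSectionVars false

open Complex Filter Topology Set

namespace Pool.Agent.H440.SD

open Pool.Agent.N784.HC (FEm GGm)
open H370.DL (refl analyticAt_refl order_refl)

lemma gammaR_analytic {s : ℂ} (hs : 0 < s.re) : AnalyticAt ℂ Complex.Gammaℝ s := by
  have h1 : AnalyticAt ℂ (fun s => (Complex.Gammaℝ s)⁻¹) s :=
    Complex.differentiable_Gammaℝ_inv.analyticAt s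
  have h2 : (Complex.Gammaℝ s)⁻¹ ≠ 0 := inv_ne_zero (Complex.Gammaℝ_ne_zero_of_re_pos hs)
  have h3 := h1.inv h2
  have h4 : (fun s => (Complex.Gammaℝ s)⁻¹)⁻¹ = Complex.Gammaℝ := by
    funext z
    simp
  rw [h4] at h3
  exact h3

section
variable {ι : Type} [Fintype ι] {R : ℝ} {μ : ι → ℝ}

lemma ggm_analytic (hR : 0 < R) (hμ : ∀ i, 0 ≤ μ i) {s : ℂ} (hs : 0 < s.re) :
    AnalyticAt ℂ (GGm R μ) s := by
  unfold GGm
  have hR' : (R : ℂ) ≠ 0 := by exact_mod_cast hR.ne'
  have h1 : AnalyticAt ℂ (fun s : ℂ => (R : ℂ) ^ (s / 2)) s := by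
    have : Differentiable ℂ (fun s : ℂ => (R : ℂ) ^ (s / 2)) := fun z =>
      (differentiableAt_id.div_const 2).const_cpow (Or.inl hR')
    exact this.analyticAt s
  have h2 : ∀ i ∈ Finset.univ, AnalyticAt ℂ (fun s : ℂ => Complex.Gammaℝ (s + μ i)) s := by
    intro i _
    have h3 : AnalyticAt ℂ Complex.Gammaℝ (s + μ i) := gammaR_analytic (by
      rw [Complex.add_re, Complex.ofReal_re]
      linarith [hμ i])
    have h4 : AnalyticAt ℂ (fun s : ℂ => s + μ i) s := by fun_prop
    exact AnalyticAt.fun_comp (f := fun s : ℂ => s + μ i) h3 h4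
  exact h1.mul (Finset.analyticAt_fun_prod _ h2)

lemma ggm_ne (hR : 0 < R) (hμ : ∀ i, 0 ≤ μ i) {s : ℂ} (hs : 0 < s.re) : GGm R μ s ≠ 0 := by
  unfold GGm
  have hR' : (R : ℂ) ≠ 0 := by exact_mod_cast hR.ne'
  refine mul_ne_zero ?_ ?_
  · rw [Complex.cpow_def_of_ne_zero hR']
    exact Complex.exp_ne_zero _
  · rw [Finset.prod_ne_zero_iff]
    intro i _
    refine Complex.Gammaℝ_ne_zero_of_re_pos ?_
    rw [Complex.add_re, Complex.ofReal_re]
    linarith [hμ i]

/-- the zeros in the strip are symmetric with respect to the critical line -/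
theorem symm_order (hR : 0 < R) (hμ : ∀ i, 0 ≤ μ i) {F : ℂ → ℂ} (h : FEm R μ F) {s : ℂ}
    (h0 : 0 < s.re) (h1 : s.re < 1) :
    analyticOrderAt F (1 - (starRingEnd ℂ) s) = analyticOrderAt F s := by
  obtain ⟨w, hw, hfe⟩ := h.fe
  obtain ⟨P, hP⟩ : ∃ P : ℂ → ℂ, P = fun s => GGm R μ s * F s := ⟨_, rfl⟩
  have hPa : ∀ z : ℂ, 0 < z.re → AnalyticAt ℂ P z := by
    intro z hz
    rw [hP]
    exact (ggm_analytic hR hμ hz).mul (h.diff.analyticAt z)
  have hPo : ∀ z : ℂ, 0 < z.re → analyticOrderAt P z = analyticOrderAt F z := by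
    intro z hz
    have e1 : analyticOrderAt P z = analyticOrderAt (GGm R μ) z + analyticOrderAt F z := by
      rw [hP]
      exact analyticOrderAt_mul (ggm_analytic hR hμ hz) (h.diff.analyticAt z)
    rw [e1, (ggm_analytic hR hμ hz).analyticOrderAt_eq_zero.mpr (ggm_ne hR hμ hz), zero_add]
  obtain ⟨U, hU⟩ : ∃ U : Set ℂ, U = {z : ℂ | 0 < z.re ∧ z.re < 1} := ⟨_, rfl⟩
  have hUo : IsOpen U := by
    rw [hU]
    exact (isOpen_lt continuous_const Complex.continuous_re).inter
      (isOpen_lt Complex.continuous_re continuous_const)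
  have hUc : IsPreconnected U := by
    have h2 : Convex ℝ U := by
      rw [hU]
      exact (convex_halfSpace_re_gt 0).inter (convex_halfSpace_re_lt 1)
    exact h2.isPreconnected
  have hrefl : ∀ z ∈ U, 0 < (1 - (starRingEnd ℂ) z).re := by
    intro z hz
    rw [hU] at hz
    rw [Complex.sub_re, Complex.one_re, Complex.conj_re]
    linarith [hz.2]
  have hQa : AnalyticOnNhd ℂ (fun z => w * refl P z) U := fun z hz =>
    analyticAt_const.mul (analyticAt_refl (hPa _ (hrefl z hz)))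
  have hPU : AnalyticOnNhd ℂ P U := fun z hz => hPa z (by rw [hU] at hz; exact hz.1)
  have hz0 : (⟨1 / 2, 1⟩ : ℂ) ∈ U := by
    rw [hU]
    constructor <;> norm_num
  have heq : Set.EqOn P (fun z => w * refl P z) U := by
    refine hPU.eqOn_of_preconnected_of_eventuallyEq hQa hUc hz0 ?_
    have h3 : {z : ℂ | 0 < z.im} ∈ 𝓝 (⟨1 / 2, 1⟩ : ℂ) :=
      (isOpen_lt continuous_const Complex.continuous_im).mem_nhds (by norm_num)
    filter_upwards [h3] with z hz
    have h4 := hfe z (ne_of_gt hz)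
    rw [hP]
    exact h4
  have hsU : s ∈ U := by rw [hU]; exact ⟨h0, h1⟩
  have h5 : P =ᶠ[𝓝 s] fun z => w * refl P z := by
    filter_upwards [hUo.mem_nhds hsU] with z hz
    exact heq hz
  have hw0 : w ≠ 0 := by
    intro h6
    rw [h6, norm_zero] at hw
    exact zero_ne_one hw
  have h6 := analyticOrderAt_congr h5
  have h7 : analyticOrderAt (fun z => w * refl P z) s =
      analyticOrderAt (fun _ : ℂ => w) s + analyticOrderAt (refl P) s :=
    analyticOrderAt_mul analyticAt_const (analyticAt_refl (hPa _ (hrefl s hsU)))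
  have h8 : analyticOrderAt (fun _ : ℂ => w) s = 0 := by
    rw [analyticAt_const.analyticOrderAt_eq_zero]
    exact hw0
  rw [h7, h8, zero_add, order_refl (hPa _ (hrefl s hsU)), hPo s h0,
    hPo _ (hrefl s hsU)] at h6
  exact h6.symm

end

end Pool.Agent.H440.SD
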